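import Mathlib

set_option autoImplicit false

namespace Pool.Agent.X78.Gab

open MvPolynomial Finset

section Spec

variable {ι : Type*} [DecidableEq ι] {F : Type*} [Field F]

/-- specialisation `X j ↦ 0` -/
noncomputable def sp (j : ι) : MvPolynomial ι F →ₐ[F] MvPolynomial ι F :=
  aeval (fun l => if l = j then 0 else X l)

lemma sp_X_self (j : ι) : sp (F := F) j (X j) = 0 := by simp [sp]

lemma sp_X_ne {j l : ι} (h : l ≠ j) : sp (F := F) j (X l) = X l := by simp [sp, h]

lemma X_dvd_sub_sp (j : ι) (f : MvPolynomial ι F) : X j ∣ f - sp j f := by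
  induction f using MvPolynomial.induction_on with
  | C a => simp [sp]
  | add p q hp hq =>
      have : p + q - sp j (p+q) = (p - sp j p) + (q - sp j q) := by rw [map_add]; ring
      rw [this]; exact dvd_add hp hq
  | mul_X p l hp =>
      by_cases h : l = j
      · subst h
        rw [map_mul, sp_X_self, mul_zero, sub_zero]; exact dvd_mul_left _ _
      · rw [map_mul, sp_X_ne h]
        have : p * X l - sp j p * X l = (p - sp j p) * X l := by ring
        rw [this]; exact hp.mul_right _

lemma X_dvd_of_sp {j : ι} {f : MvPolynomial ι F} (h : sp j f = 0) : X j ∣ f := by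
  have := X_dvd_sub_sp j f
  rwa [h, sub_zero] at this

lemma sp_of_X_dvd {j : ι} {f : MvPolynomial ι F} (h : X j ∣ f) : sp j f = 0 := by
  obtain ⟨g, rfl⟩ := h
  rw [map_mul, sp_X_self, zero_mul]

lemma divOut {κ : Type*} (j : ι) (N : ℕ) : ∀ (f : κ → MvPolynomial ι F) (a : κ), f a ≠ 0 →
    (f a).totalDegree ≤ N →
    ∃ (s : ℕ) (g : κ → MvPolynomial ι F), (∀ x, f x = X j ^ s * g x) ∧ ∃ x, sp j (g x) ≠ 0 := by
  induction N with
  | zero =>
      intro f a ha hd
      by_cases h : ∃ x, sp j (f x) ≠ 0
      · exact ⟨0, f, fun x => by simp, h⟩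
      · push Not at h
        exfalso
        obtain ⟨g, hg⟩ := X_dvd_of_sp (h a)
        have hg0 : g ≠ 0 := by rintro rfl; simp at hg; exact ha hg
        have := totalDegree_mul_of_isDomain (X_ne_zero (R := F) j) hg0
        rw [← hg, totalDegree_X] at this
        omega
  | succ N ih =>
      intro f a ha hd
      by_cases h : ∃ x, sp j (f x) ≠ 0
      · exact ⟨0, f, fun x => by simp, h⟩
      · push Not at h
        choose g hg using fun x => X_dvd_of_sp (h x)
        have hg0 : g a ≠ 0 := by intro h0; rw [hg a, h0, mul_zero] at ha; exact ha rfl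
        have hdeg := totalDegree_mul_of_isDomain (X_ne_zero (R := F) j) hg0
        rw [← hg, totalDegree_X] at hdeg
        obtain ⟨s, g', hg', hx⟩ := ih g a hg0 (by omega)
        refine ⟨s + 1, g', fun x => ?_, hx⟩
        rw [hg x, hg' x, pow_succ]; ring

variable {k : ℕ}

/-- the vector `f` vanishes in the first `m` coordinates and is orthogonal to the points `X l`, `l ∈ A` of the
monomial curve with exponents `e` -/
def Good (e : Fin k → ℕ) (A : Finset ι) (m : ℕ) (f : Fin k → MvPolynomial ι F) : Prop :=
  (∀ c : Fin k, (c : ℕ) < m → f c = 0) ∧ ∀ l ∈ A, ∑ c, f c * X l ^ e c = 0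

omit [DecidableEq ι] in
lemma good_cancel {e : Fin k → ℕ} {A : Finset ι} {m : ℕ} {f g : Fin k → MvPolynomial ι F} {j : ι} {s : ℕ}
    (hf : Good e A m f) (hg : ∀ c, f c = X j ^ s * g c) : Good e A m g := by
  have hX : (X j : MvPolynomial ι F) ^ s ≠ 0 := pow_ne_zero _ (X_ne_zero j)
  refine ⟨fun c hc => ?_, fun l hl => ?_⟩
  · have := hf.1 c hc
    rw [hg c] at this
    exact (mul_eq_zero.mp this).resolve_left hX
  · have := hf.2 l hl
    have h2 : X j ^ s * ∑ c, g c * X l ^ e c = 0 := by
      rw [← this, Finset.mul_sum]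
      refine Finset.sum_congr rfl fun c _ => ?_
      rw [hg c]; ring
    exact (mul_eq_zero.mp h2).resolve_left hX

lemma good_sp {e : Fin k → ℕ} (he : StrictMono e) {A : Finset ι} {m : ℕ} {g : Fin k → MvPolynomial ι F} (j : ι)
    (hg : Good e A m g) : Good e (A.erase j) (if j ∈ A then m + 1 else m) (fun c => sp j (g c)) := by
  refine ⟨fun c hc => ?_, fun l hl => ?_⟩
  · by_cases hcm : (c : ℕ) < m
    · show sp j (g c) = 0
      rw [hg.1 c hcm, map_zero]
    · by_cases hj : j ∈ A
      · simp only [hj, if_true] at hc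
        have hcm' : (c : ℕ) = m := by omega
        apply sp_of_X_dvd
        have h0 := hg.2 j hj
        rw [← Finset.add_sum_erase _ _ (Finset.mem_univ c)] at h0
        have h1 : (X j : MvPolynomial ι F) ^ e c * X j ∣ X j ^ e c * g c := by
          have h2 : X j ^ e c * g c = - ∑ x ∈ univ.erase c, g x * X j ^ e x := by
            rw [mul_comm]; exact eq_neg_of_add_eq_zero_left h0
          rw [h2]
          apply Dvd.dvd.neg_right
          apply Finset.dvd_sum
          intro x hx
          have hxc : x ≠ c := (Finset.mem_erase.mp hx).1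
          rcases lt_or_gt_of_ne hxc with hlt | hgt
          · have : (x : ℕ) < m := by
              have : (x : ℕ) < c := hlt
              omega
            rw [hg.1 x this, zero_mul]; exact dvd_zero _
          · have := he hgt
            apply Dvd.dvd.mul_left
            rw [← pow_succ]
            exact pow_dvd_pow _ this
        exact (mul_dvd_mul_iff_left (pow_ne_zero _ (X_ne_zero j))).mp h1
      · simp only [hj, if_false] at hc
        exact absurd hc hcm
  · have hlj : l ≠ j := (Finset.mem_erase.mp hl).1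
    have h0 := hg.2 l (Finset.mem_erase.mp hl).2
    have := congrArg (sp j) h0
    rw [map_sum, map_zero] at this
    rw [← this]
    refine Finset.sum_congr rfl fun c _ => ?_
    rw [map_mul, map_pow, sp_X_ne hlj]

omit [DecidableEq ι] in
lemma good_sum {α : Type*} {e : Fin k → ℕ} {A : Finset ι} {m : ℕ} (J : Finset α)
    {f : α → Fin k → MvPolynomial ι F} (h : ∀ i ∈ J, Good e A m (f i)) : Good e A m (∑ i ∈ J, f i) := by
  refine ⟨fun c hc => ?_, fun l hl => ?_⟩
  · rw [Finset.sum_apply]
    exact Finset.sum_eq_zero fun i hi => (h i hi).1 c hc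
  · have : ∑ c, (∑ i ∈ J, f i) c * X l ^ e c = ∑ i ∈ J, ∑ c, f i c * X l ^ e c := by
      rw [Finset.sum_comm]
      refine Finset.sum_congr rfl fun c _ => ?_
      rw [Finset.sum_apply, Finset.sum_mul]
    rw [this]
    exact Finset.sum_eq_zero fun i hi => (h i hi).2 l hl

omit [DecidableEq ι] in
lemma good_mono {e : Fin k → ℕ} {A A' : Finset ι} {m m' : ℕ} {f : Fin k → MvPolynomial ι F}
    (hA : A' ⊆ A) (hm : m' ≤ m) (h : Good e A m f) : Good e A' m' f :=
  ⟨fun c hc => h.1 c (lt_of_lt_of_le hc hm), fun l hl => h.2 l (hA hl)⟩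

/-- generalised Vandermonde -/
lemma vander {e : Fin k → ℕ} (he : StrictMono e) (N : ℕ) : ∀ (A : Finset ι) (m : ℕ)
    (f : Fin k → MvPolynomial ι F), A.card ≤ N → k ≤ m + A.card → Good e A m f → f = 0 := by
  induction N with
  | zero =>
      intro A m f hA hk hf
      funext c
      exact hf.1 c (by have := c.2; omega)
  | succ N ih =>
      intro A m f hA hk hf
      rcases A.eq_empty_or_nonempty with rfl | ⟨j, hj⟩
      · funext c
        exact hf.1 c (by have := c.2; simp at hk; omega)
      · by_contra hne
        obtain ⟨a, ha⟩ := Function.ne_iff.mp hne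
        obtain ⟨s, g, hg, x, hx⟩ := divOut j _ f a ha le_rfl
        have h1 := good_sp he j (good_cancel hf hg)
        simp only [hj, if_true] at h1
        have hc : (A.erase j).card = A.card - 1 := Finset.card_erase_of_mem hj
        have hpos : 0 < A.card := Finset.card_pos.mpr ⟨j, hj⟩
        have := ih (A.erase j) (m+1) _ (by omega) (by omega) h1
        exact hx (congrFun this x)

end Spec

end Pool.Agent.X78.Gab
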