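import Pool.Agent.X78.Gab.A

set_option autoImplicit false

namespace Pool.Agent.X78.Gab

open MvPolynomial Finset

section Main

variable {ι : Type*} [DecidableEq ι] [Fintype ι] {F : Type*} [Field F] {k : ℕ}
variable {α : Type*} [DecidableEq α]

/-- the combinatorial condition -/
def Cond (k : ℕ) (I : Finset α) (A : α → Finset ι) (m r : α → ℕ) : Prop :=
  ∀ J ⊆ I, J.Nonempty → ∀ t, (∀ i ∈ J, t ≤ m i) → (J.inf A).card + t + ∑ i ∈ J, r i ≤ k

theorem main {e : Fin k → ℕ} (he : StrictMono e) (μ : ℕ) : ∀ (I : Finset α) (A : α → Finset ι) (m r : α → ℕ)
    (f : α → Fin k → MvPolynomial ι F), (∑ i ∈ I, (k - m i)) = μ →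
    (∀ i ∈ I, m i + (A i).card + r i = k ∧ 1 ≤ r i) → Cond k I A m r →
    (∀ i ∈ I, Good e (A i) (m i) (f i)) → (∑ i ∈ I, f i = 0) → ∀ i ∈ I, f i = 0 := by
  induction μ using Nat.strong_induction_on with
  | _ μ ih =>
  intro I A m r f hμ hr hH hG hS
  have hmk : ∀ i ∈ I, 1 ≤ k - m i := fun i hi => by have := hr i hi; omega
  by_cases hI : I.card ≤ 1
  · intro i hi
    have : I = {i} := by
      apply Finset.eq_singleton_iff_unique_mem.mpr
      exact ⟨hi, fun x hx => Finset.card_le_one.mp hI x hx i hi⟩
    rw [this, Finset.sum_singleton] at hS
    exact hS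
  push Not at hI
  by_cases hT : ∃ J ⊆ I, 2 ≤ J.card ∧ J.card < I.card ∧ ∃ t, (∀ i ∈ J, t ≤ m i) ∧
      (J.inf A).card + t + ∑ i ∈ J, r i = k
  · -- merge a tight proper subfamily
    obtain ⟨J, hJI, hJ2, hJI', t, ht, htight⟩ := hT
    have hJne : J.Nonempty := Finset.card_pos.mp (by omega)
    -- t is attained
    obtain ⟨i0, hi0J, hi0⟩ : ∃ i ∈ J, m i = t := by
      by_contra hcon
      push Not at hcon
      have := hH J hJI hJne (t + 1) (fun i hi => by
        have h1 := ht i hi
        have h2 := hcon i hi
        omega)
      omega
    have hJsub : J ⊂ I := by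
      refine Finset.ssubset_iff_subset_ne.mpr ⟨hJI, fun h => ?_⟩
      rw [h] at hJI'; omega
    -- the merged family, represented at i0
    set A' : α → Finset ι := Function.update A i0 (J.inf A) with hA'
    set m' : α → ℕ := Function.update m i0 t with hm'
    set r' : α → ℕ := Function.update r i0 (∑ i ∈ J, r i) with hr'
    set f' : α → Fin k → MvPolynomial ι F := Function.update f i0 (∑ i ∈ J, f i) with hf'
    set I' : Finset α := insert i0 (I \ J) with hI'
    have hi0n : i0 ∉ I \ J := by simp [hi0J]
    have hi0I : i0 ∈ I := hJI hi0J
    have hne : ∀ i ∈ I \ J, i ≠ i0 := fun i hi h => hi0n (h ▸ hi)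
    have hsumJ : ∀ g : α → ℕ, ∑ i ∈ I, g i = ∑ i ∈ I \ J, g i + ∑ i ∈ J, g i := fun g =>
      (Finset.sum_sdiff hJI).symm
    have hsum' : ∑ i ∈ I', (k - m' i) = (k - t) + ∑ i ∈ I \ J, (k - m i) := by
      rw [hI', Finset.sum_insert hi0n]
      congr 1
      · simp [hm']
      · refine Finset.sum_congr rfl fun i hi => ?_
        rw [hm', Function.update_of_ne (hne i hi)]
    have hlt : k - t < ∑ i ∈ J, (k - m i) := by
      rw [← Finset.add_sum_erase J _ hi0J, hi0]
      have : 0 < ∑ x ∈ J.erase i0, (k - m x) := by
        have hc : 0 < (J.erase i0).card := by rw [Finset.card_erase_of_mem hi0J]; omega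
        obtain ⟨x, hx⟩ := Finset.card_pos.mp hc
        apply Finset.sum_pos'
        · intro i hi; exact Nat.zero_le _
        · exact ⟨x, hx, by
            have := hmk x (hJI (Finset.mem_of_mem_erase hx)); omega⟩
      omega
    have h1 : ∀ i ∈ I', f' i = 0 := by
      refine ih _ ?_ I' A' m' r' f' rfl ?_ ?_ ?_ ?_
      · rw [hsum', ← hμ, hsumJ]; omega
      · intro i hi
        rcases Finset.mem_insert.mp hi with rfl | hi
        · simp only [hA', hm', hr', Function.update_self]
          refine ⟨by omega, ?_⟩
          have := (hr i hi0I).2
          have h2 : r i ≤ ∑ x ∈ J, r x := Finset.single_le_sum (fun _ _ => Nat.zero_le _) hi0J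
          omega
        · rw [hA', hm', hr', Function.update_of_ne (hne i hi), Function.update_of_ne (hne i hi),
            Function.update_of_ne (hne i hi)]
          exact hr i (Finset.mem_sdiff.mp hi).1
      · intro K hK hKne t' ht'
        by_cases hiK : i0 ∈ K
        · -- expand K
          have hKer : ∀ i ∈ K.erase i0, i ∈ I \ J := fun i hi => by
            have h1 := Finset.mem_erase.mp hi
            rcases Finset.mem_insert.mp (hK h1.2) with h | h
            · exact absurd h h1.1
            · exact h
          have hdis : Disjoint (K.erase i0) J := by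
            rw [Finset.disjoint_left]
            intro i hi hiJ
            exact (Finset.mem_sdiff.mp (hKer i hi)).2 hiJ
          have h2 := hH (K.erase i0 ∪ J) (by
            intro i hi
            rcases Finset.mem_union.mp hi with h | h
            · exact (Finset.mem_sdiff.mp (hKer i h)).1
            · exact hJI h) (hJne.mono Finset.subset_union_right) t' (by
            intro i hi
            rcases Finset.mem_union.mp hi with h | h
            · have h3 := ht' i (Finset.mem_of_mem_erase h)
              rwa [hm', Function.update_of_ne (hne i (hKer i h))] at h3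
            · have h3 := ht' i0 hiK
              rw [hm', Function.update_self] at h3
              exact h3.trans (ht i h))
          have h4 : K.inf A' = (K.erase i0 ∪ J).inf A := by
            rw [← Finset.insert_erase hiK, Finset.inf_insert, Finset.erase_insert_eq_erase, Finset.erase_idem,
              Finset.inf_union, inf_comm]
            congr 1
            · refine Finset.inf_congr rfl fun i hi => ?_
              rw [hA', Function.update_of_ne (hne i (hKer i hi))]
            · simp [hA']
          have h5 : ∑ i ∈ K, r' i = ∑ i ∈ K.erase i0 ∪ J, r i := by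
            rw [Finset.sum_union hdis, ← Finset.add_sum_erase K _ hiK, add_comm]
            congr 1
            · refine Finset.sum_congr rfl fun i hi => ?_
              rw [hr', Function.update_of_ne (hne i (hKer i hi))]
            · simp [hr']
          rw [h4, h5]; exact h2
        · have hKs : ∀ i ∈ K, i ∈ I \ J := fun i hi => by
            rcases Finset.mem_insert.mp (hK hi) with h | h
            · exact absurd (h ▸ hi) hiK
            · exact h
          have h4 : K.inf A' = K.inf A := Finset.inf_congr rfl fun i hi => by
            rw [hA', Function.update_of_ne (hne i (hKs i hi))]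
          have h5 : ∑ i ∈ K, r' i = ∑ i ∈ K, r i := Finset.sum_congr rfl fun i hi => by
            rw [hr', Function.update_of_ne (hne i (hKs i hi))]
          rw [h4, h5]
          refine hH K (fun i hi => (Finset.mem_sdiff.mp (hKs i hi)).1) hKne t' (fun i hi => ?_)
          have h3 := ht' i hi
          rwa [hm', Function.update_of_ne (hne i (hKs i hi))] at h3
      · intro i hi
        rcases Finset.mem_insert.mp hi with rfl | hi
        · simp only [hA', hm', hf', Function.update_self]
          apply good_sum
          intro x hx
          exact good_mono (Finset.inf_le hx) (ht x hx) (hG x (hJI hx))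
        · rw [hA', hm', hf', Function.update_of_ne (hne i hi), Function.update_of_ne (hne i hi),
            Function.update_of_ne (hne i hi)]
          exact hG i (Finset.mem_sdiff.mp hi).1
      · rw [hI', Finset.sum_insert hi0n, ← hS, ← Finset.sum_sdiff hJI, add_comm]
        congr 1
        · refine Finset.sum_congr rfl fun i hi => ?_
          rw [hf', Function.update_of_ne (hne i hi)]
        · simp [hf']
    have h2 : ∑ i ∈ J, f i = 0 := by
      have := h1 i0 (Finset.mem_insert_self _ _)
      rwa [hf', Function.update_self] at this
    have h3 : ∀ i ∈ J, f i = 0 := by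
      refine ih (∑ i ∈ J, (k - m i)) ?_ J A m r f rfl (fun i hi => hr i (hJI hi)) ?_ (fun i hi => hG i (hJI hi)) h2
      · rw [← hμ, hsumJ]
        obtain ⟨x, hxI, hxJ⟩ := Finset.exists_of_ssubset hJsub
        have : 0 < ∑ i ∈ I \ J, (k - m i) := by
          apply Finset.sum_pos'
          · intro i hi; exact Nat.zero_le _
          · exact ⟨x, Finset.mem_sdiff.mpr ⟨hxI, hxJ⟩, by have := hmk x hxI; omega⟩
        omega
      · intro K hK; exact hH K (hK.trans hJI)
    intro i hi
    by_cases hiJ : i ∈ J
    · exact h3 i hiJ
    · have hd : i ∈ I \ J := Finset.mem_sdiff.mpr ⟨hi, hiJ⟩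
      have := h1 i (Finset.mem_insert_of_mem hd)
      rwa [hf', Function.update_of_ne (hne i hd)] at this
  · push Not at hT
    by_cases hB : ∃ i0 ∈ I, (∀ i ∈ I, m i0 ≤ m i) ∧ ∃ l ∈ I, ∃ j ∈ A l, j ∉ A i0
    · -- specialise
      obtain ⟨i0, hi0I, hmin, l, hlI, j, hjl, hj0⟩ := hB
      by_contra hcon
      push Not at hcon
      obtain ⟨i2, hi2, hf2⟩ := hcon
      obtain ⟨c2, hc2⟩ := Function.ne_iff.mp hf2
      obtain ⟨s, g, hg, x, hx⟩ := divOut (κ := {i // i ∈ I} × Fin k) j _ (fun x => f x.1.1 x.2) (⟨i2, hi2⟩, c2) hc2 le_rfl
      -- extend g
      set G : α → Fin k → MvPolynomial ι F := fun i c => if h : i ∈ I then g (⟨i, h⟩, c) else 0 with hGdef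
      have hfG : ∀ i ∈ I, ∀ c, f i c = X j ^ s * G i c := by
        intro i hi c
        have := hg (⟨i, hi⟩, c)
        simp only [hGdef, hi, dif_pos]
        exact this
      set m' : α → ℕ := fun i => if j ∈ A i then m i + 1 else m i with hm'
      have hcard : ∀ i, j ∈ A i → ((A i).erase j).card = (A i).card - 1 ∧ 0 < (A i).card := fun i hi =>
        ⟨Finset.card_erase_of_mem hi, Finset.card_pos.mpr ⟨j, hi⟩⟩
      have key := ih (∑ i ∈ I, (k - m' i)) ?_ I (fun i => (A i).erase j) m' r (fun i c => sp j (G i c)) rfl
        ?_ ?_ ?_ ?_
      · have h1 := congrFun (key x.1.1 x.1.2) x.2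
        simp only [hGdef, x.1.2, dif_pos, Pi.zero_apply] at h1
        exact hx h1
      · rw [← hμ]
        apply Finset.sum_lt_sum
        · intro i hi
          simp only [hm']; split_ifs <;> omega
        · refine ⟨l, hlI, ?_⟩
          have := hmk l hlI
          simp only [hm', hjl, if_true]; omega
      · intro i hi
        have h1 := hr i hi
        by_cases hji : j ∈ A i
        · have := hcard i hji
          simp only [hm', hji, if_true]
          omega
        · simp only [hm', hji, if_false, Finset.erase_eq_of_notMem hji]
          exact h1
      · intro J hJI hJne t' ht'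
        have hsub : (J.inf fun i => (A i).erase j).card ≤ (J.inf A).card := by
          apply Finset.card_le_card
          apply Finset.inf_mono_fun
          intro i hi
          exact Finset.erase_subset _ _
        by_cases hJ1 : J.card ≤ 1
        · obtain ⟨i, hiJ⟩ := hJne
          have hJe : J = {i} := by
            apply Finset.eq_singleton_iff_unique_mem.mpr
            exact ⟨hiJ, fun x hx => Finset.card_le_one.mp hJ1 x hx i hiJ⟩
          have h2 := ht' i hiJ
          have h3 := hr i (hJI hiJ)
          rw [hJe, Finset.inf_singleton, Finset.sum_singleton]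
          by_cases hji : j ∈ A i
          · have := hcard i hji
            simp only [hm', hji, if_true] at h2
            omega
          · simp only [hm', hji, if_false] at h2
            rw [Finset.erase_eq_of_notMem hji]
            omega
        · push Not at hJ1
          by_cases hJI' : J.card < I.card
          · have htl : ∀ i ∈ J, t' - 1 ≤ m i := fun i hi => by
              have := ht' i hi
              simp only [hm'] at this
              split_ifs at this <;> omega
            have h2 := hH J hJI hJne (t' - 1) htl
            have h3 := hT J hJI hJ1 hJI' (t' - 1) htl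
            omega
          · have hJe : J = I := Finset.eq_of_subset_of_card_le hJI (by omega)
            have h2 := hH J hJI hJne t' (fun i hi => by
              have h3 := ht' i0 (hJe ▸ hi0I)
              simp only [hm', hj0, if_false] at h3
              exact h3.trans (hmin i (hJI hi)))
            omega
      · intro i hi
        exact good_sp he j (good_cancel (hG i hi) (hfG i hi))
      · funext c
        rw [Finset.sum_apply]
        have h1 : X j ^ s * ∑ i ∈ I, G i c = 0 := by
          rw [Finset.mul_sum]
          have := congrFun hS c
          rw [Finset.sum_apply] at this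
          rw [Pi.zero_apply] at this
          rw [← this]
          exact Finset.sum_congr rfl fun i hi => (hfG i hi c).symm
        have h2 := (mul_eq_zero.mp h1).resolve_left (pow_ne_zero _ (X_ne_zero j))
        have h3 := congrArg (sp j) h2
        rw [map_sum, map_zero] at h3
        simpa using h3
    · -- one member has the least multiplicity and the largest set
      push Not at hB
      have hIne : I.Nonempty := Finset.card_pos.mp (by omega)
      obtain ⟨i0, hi0I, hmin⟩ := Finset.exists_min_image I m hIne
      have hlt : ∀ l ∈ I, l ≠ i0 → m i0 < m l := by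
        intro l hl hne
        by_contra hcon
        have hml : m l = m i0 := le_antisymm (by omega) (hmin l hl)
        have hsub1 : A i0 ⊆ A l := fun x hx => hB l hl (fun i hi => hml ▸ hmin i hi) i0 hi0I x hx
        have hsub2 : A l ⊆ A i0 := fun x hx => hB i0 hi0I hmin l hl x hx
        have hAe : A l = A i0 := Finset.Subset.antisymm hsub2 hsub1
        have h1 := hH {i0, l} (by
          intro x hx
          simp only [Finset.mem_insert, Finset.mem_singleton] at hx
          rcases hx with rfl | rfl
          · exact hi0I
          · exact hl) ⟨i0, by simp⟩ (m i0) (by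
          intro x hx
          simp only [Finset.mem_insert, Finset.mem_singleton] at hx
          rcases hx with rfl | rfl
          · exact le_rfl
          · exact hmin _ hl)
        rw [Finset.inf_insert, Finset.inf_singleton, hAe, inf_idem, Finset.sum_pair (Ne.symm hne)] at h1
        have h2 := hr i0 hi0I
        have h3 := hr l hl
        omega
      have h0 : ∀ c : Fin k, (c : ℕ) < m i0 + 1 → f i0 c = 0 := by
        intro c hc
        by_cases hc' : (c : ℕ) < m i0
        · exact (hG i0 hi0I).1 c hc'
        · have h1 := congrFun hS c
          rw [Finset.sum_apply, ← Finset.add_sum_erase I _ hi0I] at h1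
          have h2 : ∑ x ∈ I.erase i0, f x c = 0 := by
            apply Finset.sum_eq_zero
            intro x hx
            have hx' := Finset.mem_erase.mp hx
            have := hlt x hx'.2 hx'.1
            exact (hG x hx'.2).1 c (by omega)
          rw [h2, add_zero] at h1
          exact h1
      have hG0 : Good e (A i0) (m i0 + 1) (f i0) := ⟨h0, (hG i0 hi0I).2⟩
      have hr0 := hr i0 hi0I
      by_cases hr1 : r i0 = 1
      · have hf0 : f i0 = 0 := vander he _ (A i0) (m i0 + 1) (f i0) le_rfl (by omega) hG0
        have key := ih (∑ i ∈ I.erase i0, (k - m i)) (by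
          rw [← hμ, ← Finset.add_sum_erase I _ hi0I]
          have := hmk i0 hi0I
          omega) (I.erase i0) A m r f rfl
          (fun i hi => hr i (Finset.mem_of_mem_erase hi))
          (fun J hJ => hH J (hJ.trans (Finset.erase_subset _ _)))
          (fun i hi => hG i (Finset.mem_of_mem_erase hi)) (by
            rw [← Finset.add_sum_erase I _ hi0I, hf0, zero_add] at hS
            exact hS)
        intro i hi
        by_cases hii : i = i0
        · rw [hii]; exact hf0
        · exact key i (Finset.mem_erase.mpr ⟨hii, hi⟩)
      · set m' : α → ℕ := Function.update m i0 (m i0 + 1) with hm'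
        set r' : α → ℕ := Function.update r i0 (r i0 - 1) with hr'
        have hmne : ∀ i, i ≠ i0 → m' i = m i := fun i hi => by rw [hm', Function.update_of_ne hi]
        have hrne : ∀ i, i ≠ i0 → r' i = r i := fun i hi => by rw [hr', Function.update_of_ne hi]
        have hm0 : m' i0 = m i0 + 1 := by rw [hm', Function.update_self]
        have hr0' : r' i0 = r i0 - 1 := by rw [hr', Function.update_self]
        refine ih (∑ i ∈ I, (k - m' i)) ?_ I A m' r' f rfl ?_ ?_ ?_ hS
        · rw [← hμ]
          apply Finset.sum_lt_sum
          · intro i hi
            by_cases hii : i = i0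
            · rw [hii, hm0]; omega
            · rw [hmne i hii]
          · exact ⟨i0, hi0I, by rw [hm0]; have := hmk i0 hi0I; omega⟩
        · intro i hi
          by_cases hii : i = i0
          · rw [hii, hm0, hr0']; omega
          · rw [hmne i hii, hrne i hii]; exact hr i hi
        · intro J hJI hJne t' ht'
          by_cases h0J : i0 ∈ J
          · have h1 := hH J hJI hJne (t' - 1) (fun i hi => by
              have := ht' i hi
              by_cases hii : i = i0
              · rw [hii, hm0] at this; rw [hii]; omega
              · rw [hmne i hii] at this; omega)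
            have h2 : ∑ i ∈ J, r' i + 1 = ∑ i ∈ J, r i := by
              rw [← Finset.add_sum_erase J _ h0J, ← Finset.add_sum_erase J _ h0J, hr0']
              have : ∑ x ∈ J.erase i0, r' x = ∑ x ∈ J.erase i0, r x :=
                Finset.sum_congr rfl fun x hx => hrne x (Finset.mem_erase.mp hx).1
              rw [this]; omega
            omega
          · have h2 : ∑ i ∈ J, r' i = ∑ i ∈ J, r i :=
              Finset.sum_congr rfl fun x hx => hrne x (fun h => h0J (h ▸ hx))
            rw [h2]
            exact hH J hJI hJne t' (fun i hi => by
              have := ht' i hi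
              rwa [hmne i (fun h => h0J (h ▸ hi))] at this)
        · intro i hi
          by_cases hii : i = i0
          · rw [hii, hm0]; exact hG0
          · rw [hmne i hii]; exact hG i hi

end Main

end Pool.Agent.X78.Gab
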