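import Mathlib

set_option autoImplicit false

namespace Pool.Agent.X78.Gab

open Finset Matrix

section Moore

variable {F K : Type*} [Field F] [Fintype F] [Field K] [Algebra F K]

/-- `x ↦ x ^ (q ^ s)` -/
noncomputable def fr (F K : Type*) [Field F] [Fintype F] [Field K] [Algebra F K] (s : ℕ) : K →ₐ[F] K :=
  (FiniteField.frobeniusAlgHom F K) ^ s

lemma fr_apply (s : ℕ) (x : K) : fr F K s x = x ^ (Fintype.card F ^ s) := by
  rw [fr, AlgHom.coe_pow, FiniteField.coe_frobeniusAlgHom, pow_iterate]

lemma M2 {κ : Type*} [Fintype κ] {θ : κ → K} (hθ : LinearIndependent F θ) {N : ℕ} (hN : N ≤ Fintype.card κ)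
    {a : Fin N → K} (ha : ∀ j, ∑ i, a i * θ j ^ (Fintype.card F ^ (i : ℕ)) = 0) : a = 0 := by
  classical
  have hq : 1 < Fintype.card F := Fintype.one_lt_card
  rcases Nat.eq_zero_or_pos N with rfl | hNpos
  · funext i; exact i.elim0
  set p : Polynomial K := ∑ i : Fin N, Polynomial.monomial (Fintype.card F ^ (i : ℕ)) (a i) with hp
  have hev : ∀ c : κ → F, p.eval (∑ j, c j • θ j) = 0 := by
    intro c
    rw [hp, Polynomial.eval_finsetSum]
    have h1 : ∀ i : Fin N, (Polynomial.monomial (Fintype.card F ^ (i : ℕ)) (a i)).eval (∑ j, c j • θ j)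
        = ∑ j, c j • (a i * θ j ^ (Fintype.card F ^ (i : ℕ))) := by
      intro i
      rw [Polynomial.eval_monomial, ← fr_apply (F := F) (i : ℕ) (∑ j, c j • θ j), map_sum, Finset.mul_sum]
      refine Finset.sum_congr rfl fun j _ => ?_
      rw [map_smul, fr_apply, mul_smul_comm]
    rw [Finset.sum_congr rfl fun i _ => h1 i, Finset.sum_comm]
    apply Finset.sum_eq_zero
    intro j _
    rw [← Finset.smul_sum, ha j, smul_zero]
  have hdeg : p.natDegree ≤ Fintype.card F ^ (N - 1) := by
    rw [hp]
    apply Polynomial.natDegree_sum_le_of_forall_le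
    intro i _
    refine (Polynomial.natDegree_monomial_le _).trans ?_
    exact Nat.pow_le_pow_right (by omega) (by have := i.2; omega)
  have hp0 : p = 0 := by
    apply Polynomial.eq_zero_of_natDegree_lt_card_of_eval_eq_zero p (f := fun c : κ → F => ∑ j, c j • θ j)
    · intro c c' hcc
      have h1 : ∑ j, (c j - c' j) • θ j = 0 := by
        simp only [sub_smul, Finset.sum_sub_distrib]
        exact sub_eq_zero.mpr hcc
      funext j
      exact sub_eq_zero.mp (Fintype.linearIndependent_iff.mp hθ _ h1 j)
    · exact hev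
    · rw [Fintype.card_fun]
      refine lt_of_le_of_lt hdeg ?_
      exact Nat.pow_lt_pow_right hq (by omega)
  funext i
  have := congrArg (fun r => Polynomial.coeff r (Fintype.card F ^ (i : ℕ))) hp0
  simp only [hp, Polynomial.finsetSum_coeff, Polynomial.coeff_monomial, Polynomial.coeff_zero] at this
  rw [Finset.sum_eq_single i] at this
  · simpa using this
  · intro b _ hb
    rw [if_neg]
    intro h
    exact hb (Fin.ext (Nat.pow_right_injective hq h))
  · simp

lemma M1 {κ : Type*} [Fintype κ] {θ : κ → K} (hθ : LinearIndependent F θ) {g : κ → K}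
    (hg : ∀ i < Fintype.card κ, ∑ j, g j * θ j ^ (Fintype.card F ^ i) = 0) : g = 0 := by
  by_contra hne
  let e := Fintype.equivFin κ
  let M : Matrix (Fin (Fintype.card κ)) (Fin (Fintype.card κ)) K :=
    fun i j => θ (e.symm j) ^ (Fintype.card F ^ (i : ℕ))
  have h1 : M.det = 0 := by
    rw [← Matrix.exists_mulVec_eq_zero_iff]
    refine ⟨fun j => g (e.symm j), ?_, ?_⟩
    · intro h0
      apply hne
      funext x
      have := congrFun h0 (e x)
      simpa using this
    · funext i
      show ∑ j, M i j * g (e.symm j) = 0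
      rw [← hg i i.2, ← Equiv.sum_comp e.symm]
      exact Finset.sum_congr rfl fun j _ => mul_comm _ _
  rw [← Matrix.exists_vecMul_eq_zero_iff] at h1
  obtain ⟨a, ha, hM⟩ := h1
  apply ha
  apply M2 hθ le_rfl
  intro j
  have := congrFun hM (e j)
  simp only [Matrix.vecMul, dotProduct, M, Equiv.symm_apply_apply, Pi.zero_apply] at this
  exact this

/-- existence of the dual Gabidulin points -/
lemma D1 (hK : Function.Surjective (fun x : K => x ^ Fintype.card F)) {k d n : ℕ} (hn : n = k + d)
    {h : Fin n → K} (hh : LinearIndependent F h) :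
    ∃ g : Fin n → K, LinearIndependent F g ∧ ∀ t < k, ∀ s < d,
      ∑ j, g j ^ (Fintype.card F ^ t) * h j ^ (Fintype.card F ^ s) = 0 := by
  rcases Nat.eq_zero_or_pos k with rfl | hk
  · exact ⟨h, hh, fun t ht => absurd ht (Nat.not_lt_zero _)⟩
  have hroot : ∀ m : ℕ, Function.Surjective (fun x : K => x ^ (Fintype.card F ^ m)) := by
    intro m
    have : (fun x : K => x ^ (Fintype.card F ^ m)) = (fun x : K => x ^ Fintype.card F)^[m] := by
      rw [pow_iterate]
    rw [this]
    exact hK.iterate m
  choose θ hθ using fun j => hroot (k - 1) (h j)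
  have hθli : LinearIndependent F θ := by
    have : h = fun j => fr F K (k-1) (θ j) := by
      funext j; rw [fr_apply]; exact (hθ j).symm
    rw [this] at hh
    exact LinearIndependent.of_comp (fr F K (k-1)).toLinearMap hh
  -- g in the kernel of the Moore matrix with n - 1 rows
  obtain ⟨g, hg0, hg⟩ : ∃ g : Fin n → K, g ≠ 0 ∧ ∀ i < n - 1, ∑ j, g j * θ j ^ (Fintype.card F ^ i) = 0 := by
    let M : Matrix (Fin n) (Fin n) K := fun i j => if (i : ℕ) < n - 1 then θ j ^ (Fintype.card F ^ (i : ℕ)) else 0
    have hdet : M.det = 0 := by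
      apply Matrix.det_eq_zero_of_row_eq_zero (⟨n - 1, by omega⟩ : Fin n)
      intro j
      simp [M]
    rw [← Matrix.exists_mulVec_eq_zero_iff] at hdet
    obtain ⟨g, hg0, hg⟩ := hdet
    refine ⟨g, hg0, fun i hi => ?_⟩
    have := congrFun hg ⟨i, by omega⟩
    simp only [Matrix.mulVec, dotProduct, M, hi, if_true, Pi.zero_apply] at this
    rw [← this]
    exact Finset.sum_congr rfl fun j _ => mul_comm _ _
  refine ⟨g, ?_, ?_⟩
  · rw [Fintype.linearIndependent_iff]
    intro l hl
    by_contra hcon
    push Not at hcon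
    obtain ⟨j0, hj0⟩ := hcon
    apply hg0
    -- eliminate coordinate j0
    set c : Fin n → F := fun j => l j / l j0 with hc
    have hgj0 : g j0 = - ∑ j ∈ univ.erase j0, c j • g j := by
      have h1 := hl
      rw [← Finset.add_sum_erase _ _ (Finset.mem_univ j0)] at h1
      have h2 : l j0 • (g j0 + ∑ j ∈ univ.erase j0, c j • g j) = 0 := by
        rw [← h1, smul_add, Finset.smul_sum]
        congr 1
        refine Finset.sum_congr rfl fun j _ => ?_
        rw [smul_smul, hc]
        congr 1
        field_simp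
      have h3 := (smul_eq_zero.mp h2).resolve_left hj0
      exact eq_neg_of_add_eq_zero_left h3
    let κ := {j : Fin n // j ≠ j0}
    let θ' : κ → K := fun j => θ j - c j • θ j0
    have hsumκ : ∀ φ : Fin n → K, ∑ j : κ, φ j = ∑ j ∈ univ.erase j0, φ j := by
      intro φ
      have : univ.erase j0 = univ.filter (fun j => j ≠ j0) := by ext; simp
      rw [this, Finset.sum_subtype (univ.filter (fun j => j ≠ j0)) (p := fun j => j ≠ j0) (by simp)]
    have hcardκ : Fintype.card κ = n - 1 := by
      simp [κ]
    have hθ' : LinearIndependent F θ' := by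
      rw [Fintype.linearIndependent_iff]
      intro u hu
      -- extend u
      let u' : Fin n → F := fun j => if hj : j ≠ j0 then u ⟨j, hj⟩ else - ∑ x : κ, u x * c x
      have h4 : ∑ j, u' j • θ j = 0 := by
        rw [← Finset.add_sum_erase _ _ (Finset.mem_univ j0), ← hsumκ (fun j => u' j • θ j)]
        have h5 : u' j0 = - ∑ x : κ, u x * c x := by simp [u']
        have h6 : ∀ x : κ, u' x = u x := fun x => by
          have hx : (x : Fin n) ≠ j0 := x.2
          simp only [u']
          rw [dif_pos hx]
        have h66 : ∑ x : κ, u' x • θ x = ∑ x : κ, u x • θ x :=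
          Finset.sum_congr rfl fun x _ => by rw [h6 x]
        rw [h5, h66, ← hu]
        rw [neg_smul, Finset.sum_smul, neg_add_eq_sub, ← Finset.sum_sub_distrib]
        refine Finset.sum_congr rfl fun x _ => ?_
        simp only [θ', smul_sub, smul_smul]
      have h7 := Fintype.linearIndependent_iff.mp hθli u' h4
      intro x
      have h8 := h7 x
      have hx : (x : Fin n) ≠ j0 := x.2
      simp only [u'] at h8
      rw [dif_pos hx] at h8
      exact h8
    have hM := M1 hθ' (g := fun x : κ => g x) (by
      intro i hi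
      rw [hcardκ] at hi
      have h9 := hg i hi
      have h10 : ∀ x : κ, g x * θ' x ^ (Fintype.card F ^ i)
          = g x * θ x ^ (Fintype.card F ^ i) - (c x • g x) * θ j0 ^ (Fintype.card F ^ i) := by
        intro x
        simp only [θ']
        rw [← fr_apply (F := F) i (θ x - c x • θ j0), map_sub, map_smul, fr_apply, fr_apply, mul_sub,
          mul_smul_comm, smul_mul_assoc]
      rw [Finset.sum_congr rfl fun x _ => h10 x, Finset.sum_sub_distrib, ← Finset.sum_mul,
        hsumκ (fun j => g j * θ j ^ (Fintype.card F ^ i)), hsumκ (fun j => c j • g j)]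
      rw [← Finset.add_sum_erase _ _ (Finset.mem_univ j0)] at h9
      have h11 : ∑ j ∈ univ.erase j0, c j • g j = - g j0 := by rw [hgj0, neg_neg]
      rw [h11, neg_mul, sub_neg_eq_add, add_comm]
      exact h9)
    have hgx : ∀ j, j ≠ j0 → g j = 0 := fun j hj => congrFun hM ⟨j, hj⟩
    funext j
    by_cases hj : j = j0
    · rw [hj, hgj0]
      have : ∑ j ∈ univ.erase j0, c j • g j = 0 := by
        apply Finset.sum_eq_zero
        intro x hx
        rw [hgx x (Finset.mem_erase.mp hx).1, smul_zero]
      rw [this, neg_zero]; rfl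
    · exact hgx j hj
  · intro t ht s hs
    have h1 := hg (k - 1 + s - t) (by omega)
    have h2 := congrArg (fr F K t) h1
    rw [map_sum, map_zero] at h2
    rw [← h2]
    refine Finset.sum_congr rfl fun j _ => ?_
    rw [map_mul, fr_apply, fr_apply, ← pow_mul, ← pow_add, ← hθ j]
    simp only
    rw [← pow_mul, ← pow_add]
    congr 3
    omega

/-- the `[n,k]` Gabidulin code with evaluation points `g` -/
def gabidulin (F : Type*) {L : Type*} [Field F] [Fintype F] [Field L] {n : ℕ} (k : ℕ) (g : Fin n → L) :
    Submodule L (Fin n → L) where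
  carrier := {c | ∃ f : Fin k → L, ∀ j, c j = ∑ t, f t * g j ^ (Fintype.card F ^ (t : ℕ))}
  add_mem' := by
    rintro a b ⟨f, hf⟩ ⟨f', hf'⟩
    refine ⟨f + f', fun j => ?_⟩
    rw [Pi.add_apply, hf, hf', ← Finset.sum_add_distrib]
    exact Finset.sum_congr rfl fun t _ => by rw [Pi.add_apply]; ring
  zero_mem' := ⟨0, fun j => by simp⟩
  smul_mem' := by
    rintro c a ⟨f, hf⟩
    refine ⟨c • f, fun j => ?_⟩
    rw [Pi.smul_apply, hf, smul_eq_mul, Finset.mul_sum]
    exact Finset.sum_congr rfl fun t _ => by rw [Pi.smul_apply, smul_eq_mul]; ring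

end Moore

end Pool.Agent.X78.Gab
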