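import Pool.Agent.X78.Gab.B
import Pool.Agent.X78.Gab.C

set_option autoImplicit false

namespace Pool.Agent.X78.Gab

open Finset Matrix

section W

variable {n d : ℕ}

/-- signed maximal minors of the matrix with rows `(h (σ b) ^ (q ^ s))_s` -/
noncomputable def wv {R : Type*} [CommRing R] (q : ℕ) (σ : Fin (d + 1) → Fin n) (h : Fin n → R)
    (b : Fin (d + 1)) : R :=
  (-1) ^ (b : ℕ) * Matrix.det (Matrix.of fun (b' s : Fin d) => h (σ (b.succAbove b')) ^ (q ^ (s : ℕ)))

/-- the word of length `n` supported on the range of `σ` built from `wv` -/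
noncomputable def wrow {R : Type*} [CommRing R] (q : ℕ) (σ : Fin (d + 1) → Fin n) (h : Fin n → R) (a : Fin n) : R :=
  ∑ b, if σ b = a then wv q σ h b else 0

lemma wv_map {R S : Type*} [CommRing R] [CommRing S] (φ : R →+* S) (q : ℕ) (σ : Fin (d + 1) → Fin n)
    (h : Fin n → R) (b : Fin (d + 1)) : φ (wv q σ h b) = wv q σ (fun j => φ (h j)) b := by
  unfold wv
  rw [map_mul, map_pow, map_neg, map_one, RingHom.map_det]
  congr 2
  ext b' s
  simp

lemma wrow_map {R S : Type*} [CommRing R] [CommRing S] (φ : R →+* S) (q : ℕ) (σ : Fin (d + 1) → Fin n)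
    (h : Fin n → R) (a : Fin n) : φ (wrow q σ h a) = wrow q σ (fun j => φ (h j)) a := by
  unfold wrow
  rw [map_sum]
  refine Finset.sum_congr rfl fun b _ => ?_
  split_ifs
  · exact wv_map φ q σ h b
  · exact map_zero φ

lemma wv_orth {R : Type*} [CommRing R] (q : ℕ) (σ : Fin (d + 1) → Fin n) (h : Fin n → R) (s : ℕ) (hs : s < d) :
    ∑ b, wv q σ h b * h (σ b) ^ (q ^ s) = 0 := by
  let A : Matrix (Fin (d + 1)) (Fin (d + 1)) R :=
    Matrix.of fun b c => Fin.cases (h (σ b) ^ (q ^ s)) (fun s' : Fin d => h (σ b) ^ (q ^ (s' : ℕ))) c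
  have h1 : A.det = 0 := by
    apply Matrix.det_zero_of_column_eq (i := 0) (j := Fin.succ ⟨s, hs⟩)
    · exact (Fin.succ_ne_zero _).symm
    · intro b; simp [A]
  rw [Matrix.det_succ_column_zero] at h1
  rw [← h1]
  refine Finset.sum_congr rfl fun b _ => ?_
  have h2 : A.submatrix b.succAbove Fin.succ
      = Matrix.of fun (b' s : Fin d) => h (σ (b.succAbove b')) ^ (q ^ (s : ℕ)) := by
    ext b' s'; simp [A]
  rw [h2]
  simp only [wv, A, Matrix.of_apply, Fin.cases_zero]
  ring

lemma wrow_orth {R : Type*} [CommRing R] (q : ℕ) (σ : Fin (d + 1) → Fin n) (h : Fin n → R) (s : ℕ) (hs : s < d) :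
    ∑ a, wrow q σ h a * h a ^ (q ^ s) = 0 := by
  rw [← wv_orth q σ h s hs]
  unfold wrow
  simp_rw [Finset.sum_mul]
  rw [Finset.sum_comm]
  refine Finset.sum_congr rfl fun b _ => ?_
  rw [Finset.sum_eq_single (σ b)]
  · simp
  · intro a _ ha
    rw [if_neg (Ne.symm ha), zero_mul]
  · simp

lemma wrow_zero {R : Type*} [CommRing R] (q : ℕ) (σ : Fin (d + 1) → Fin n) (h : Fin n → R) (a : Fin n)
    (ha : ∀ b, σ b ≠ a) : wrow q σ h a = 0 := by
  unfold wrow
  exact Finset.sum_eq_zero fun b _ => by rw [if_neg (ha b)]

lemma wrow_apply {R : Type*} [CommRing R] (q : ℕ) (σ : Fin (d + 1) → Fin n) (hσ : Function.Injective σ)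
    (h : Fin n → R) (b : Fin (d + 1)) : wrow q σ h (σ b) = wv q σ h b := by
  unfold wrow
  rw [Finset.sum_eq_single b]
  · simp
  · intro c _ hc
    rw [if_neg (fun h => hc (hσ h))]
  · simp

/-- degree of a determinant in one variable -/
lemma degreeOf_det_le {τ R : Type*} [CommRing R] [Nontrivial R] {m : ℕ}
    (M : Matrix (Fin m) (Fin m) (MvPolynomial τ R)) (a : τ)
    (D : Fin m → ℕ) (h : ∀ i j, MvPolynomial.degreeOf a (M i j) ≤ D i) :
    MvPolynomial.degreeOf a M.det ≤ ∑ i, D i := by
  rw [Matrix.det_apply']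
  refine (MvPolynomial.degreeOf_sum_le _ _ _).trans (Finset.sup_le fun π _ => ?_)
  refine (MvPolynomial.degreeOf_mul_le _ _ _).trans ?_
  have h1 : MvPolynomial.degreeOf a (((Equiv.Perm.sign π : ℤ) : MvPolynomial τ R)) = 0 := by
    have : ((Equiv.Perm.sign π : ℤ) : MvPolynomial τ R) = MvPolynomial.C ((Equiv.Perm.sign π : ℤ) : R) := by
      simp
    rw [this, MvPolynomial.degreeOf_C]
  rw [h1, zero_add]
  refine (MvPolynomial.degreeOf_prod_le _ _ _).trans ?_
  rw [← Equiv.sum_comp π D]
  exact Finset.sum_le_sum fun i _ => h (π i) i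

/-- the bound for the degrees of the minors -/
def bt (q d : ℕ) : ℕ := if d = 0 then 0 else q ^ (d - 1)

lemma degreeOf_wv {R : Type*} [Field R] (q : ℕ) (hq : 1 ≤ q) (σ : Fin (d + 1) → Fin n) (hσ : Function.Injective σ)
    (a : Fin n) (b : Fin (d + 1)) :
    MvPolynomial.degreeOf a (wv q σ (MvPolynomial.X (R := R)) b) ≤ bt q d := by
  unfold wv
  refine (MvPolynomial.degreeOf_mul_le _ _ _).trans ?_
  have h1 : MvPolynomial.degreeOf a ((-1 : MvPolynomial (Fin n) R) ^ (b : ℕ)) = 0 := by
    have : ((-1 : MvPolynomial (Fin n) R) ^ (b : ℕ)) = MvPolynomial.C ((-1 : R) ^ (b : ℕ)) := by simp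
    rw [this, MvPolynomial.degreeOf_C]
  rw [h1, zero_add]
  refine (degreeOf_det_le _ a (fun b' => if σ (b.succAbove b') = a then q ^ (d - 1) else 0) ?_).trans ?_
  · intro b' s
    rw [Matrix.of_apply]
    refine (MvPolynomial.degreeOf_pow_le _ _ _).trans ?_
    rw [MvPolynomial.degreeOf_X]
    by_cases hab : σ (b.succAbove b') = a
    · rw [if_pos hab, if_pos hab.symm, mul_one]
      exact Nat.pow_le_pow_right hq (by have := s.2; omega)
    · rw [if_neg hab, if_neg (Ne.symm hab), mul_zero]
  · by_cases hd : d = 0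
    · subst hd
      simp
    · unfold bt
      rw [if_neg hd]
      by_cases hex : ∃ b', σ (b.succAbove b') = a
      · obtain ⟨b', hb'⟩ := hex
        rw [Finset.sum_eq_single b']
        · rw [if_pos hb']
        · intro c _ hc
          rw [if_neg]
          intro h
          exact hc (Fin.succAbove_right_injective (hσ (h.trans hb'.symm)))
        · simp
      · push Not at hex
        rw [Finset.sum_eq_zero fun c _ => if_neg (hex c)]
        exact Nat.zero_le _

lemma degreeOf_wrow {R : Type*} [Field R] (q : ℕ) (hq : 1 ≤ q) (σ : Fin (d + 1) → Fin n) (hσ : Function.Injective σ)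
    (a x : Fin n) :
    MvPolynomial.degreeOf a (wrow q σ (MvPolynomial.X (R := R)) x) ≤ bt q d := by
  unfold wrow
  refine (MvPolynomial.degreeOf_sum_le _ _ _).trans (Finset.sup_le fun b _ => ?_)
  split_ifs
  · exact degreeOf_wv q hq σ hσ a b
  · rw [MvPolynomial.degreeOf_zero]; exact Nat.zero_le _

end W

section Choice

variable {F L : Type*} [Field F] [Fintype F] [Field L] [Fintype L] [Algebra F L]

lemma choose_pt (B : ℕ) (n : ℕ) : ∀ (D : MvPolynomial (Fin n) L), D ≠ 0 → (∀ j, D.degreeOf j ≤ B) →
    (∀ n', n' < n → Fintype.card F ^ n' + B < Fintype.card L) →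
    ∃ h : Fin n → L, LinearIndependent F h ∧ MvPolynomial.eval h D ≠ 0 := by
  induction n with
  | zero =>
      intro D hD _ _
      refine ⟨Fin.elim0, linearIndependent_empty_type, ?_⟩
      intro h0
      apply hD
      rw [MvPolynomial.eq_C_of_isEmpty D] at h0 ⊢
      rw [MvPolynomial.eval_C] at h0
      rw [h0, map_zero]
  | succ n ih =>
      intro D hD hdeg hcard
      classical
      set P := MvPolynomial.finSuccEquiv L n D with hP
      have hP0 : P ≠ 0 := by
        intro h0
        apply hD
        exact (MvPolynomial.finSuccEquiv L n).injective (by rw [← hP, h0, map_zero])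
      obtain ⟨h', hli, hev⟩ := ih P.leadingCoeff (Polynomial.leadingCoeff_ne_zero.mpr hP0)
        (fun j => (MvPolynomial.degreeOf_coeff_finSuccEquiv D j _).trans (hdeg _))
        (fun n' hn' => hcard n' (by omega))
      set Q : Polynomial L := P.map (MvPolynomial.eval h') with hQ
      have hQ0 : Q ≠ 0 := by
        intro h0
        apply hev
        have := congrArg (fun r => Polynomial.coeff r P.natDegree) h0
        simpa only [hQ, Polynomial.coeff_map, Polynomial.coeff_zero, Polynomial.coeff_natDegree] using this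
      have hQdeg : Q.natDegree ≤ B := by
        refine (Polynomial.natDegree_map_le).trans ?_
        rw [hP, MvPolynomial.natDegree_finSuccEquiv]
        exact hdeg 0
      -- forbidden set
      let S : Finset L := (Finset.univ.image fun c : Fin n → F => ∑ i, c i • h' i) ∪ Q.roots.toFinset
      have hS : S.card < Fintype.card L := by
        refine lt_of_le_of_lt (Finset.card_union_le _ _) ?_
        refine lt_of_le_of_lt (Nat.add_le_add (b := Fintype.card F ^ n) (d := B) ?_ ?_) (hcard n (by omega))
        · refine Finset.card_image_le.trans ?_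
          rw [Finset.card_univ, Fintype.card_fun, Fintype.card_fin]
        · exact (Multiset.toFinset_card_le _).trans ((Polynomial.card_roots' Q).trans hQdeg)
      obtain ⟨x, hx⟩ : ∃ x, x ∉ S := by
        by_contra hcon
        push Not at hcon
        have : S = Finset.univ := Finset.eq_univ_iff_forall.mpr hcon
        rw [this, Finset.card_univ] at hS
        exact lt_irrefl _ hS
      refine ⟨Fin.cons x h', ?_, ?_⟩
      · rw [linearIndependent_finCons]
        refine ⟨hli, fun hmem => hx ?_⟩
        rw [Submodule.mem_span_range_iff_exists_fun] at hmem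
        obtain ⟨c, hc⟩ := hmem
        exact Finset.mem_union_left _ (Finset.mem_image.mpr ⟨c, Finset.mem_univ _, hc⟩)
      · rw [MvPolynomial.eval_eq_eval_mv_eval']
        intro h0
        apply hx
        apply Finset.mem_union_right
        rw [Multiset.mem_toFinset, Polynomial.mem_roots hQ0]
        exact h0

end Choice

section Minor

variable {K : Type*} [Field K]

lemma exists_minor {k n : ℕ} (W : Fin k → Fin n → K) (hW : LinearIndependent K W) :
    ∃ T : Fin k → Fin n, Matrix.det (Matrix.of fun i a => W i (T a)) ≠ 0 := by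
  let M : Matrix (Fin k) (Fin n) K := Matrix.of W
  have hrow : LinearIndependent K M.row := hW
  have hrank := hrow.rank_matrix
  rw [Fintype.card_fin, Matrix.rank_eq_finrank_span_cols] at hrank
  obtain ⟨κ, a, ha, hsp, hli⟩ := exists_linearIndependent' K M.col
  have : Finite κ := Finite.of_injective a ha
  have := Fintype.ofFinite κ
  have hcard : Fintype.card κ = k := by
    rw [← hrank, ← hsp]
    exact (finrank_span_eq_card hli).symm
  let e : Fin k ≃ κ := (Fintype.equivFinOfCardEq hcard).symm
  refine ⟨fun i => a (e i), ?_⟩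
  have h2 : LinearIndependent K (fun i => M.col (a (e i))) := hli.comp e e.injective
  have h3 : IsUnit (Matrix.of fun i x => W i (a (e x)) : Matrix (Fin k) (Fin k) K) := by
    rw [← Matrix.linearIndependent_cols_iff_isUnit]
    exact h2
  exact ((Matrix.isUnit_iff_isUnit_det _).mp h3).ne_zero

end Minor

section Extend

lemma extend_aux {n k : ℕ} (hkn : k ≤ n) (Z : Fin k → Finset (Fin n))
    (H : ∀ Ω : Finset (Fin k), Ω.Nonempty → (Ω.inf Z).card + Ω.card ≤ k) (i : Fin k) (hi : (Z i).card < k - 1) :
    ∃ x, x ∉ Z i ∧ ∀ Ω : Finset (Fin k), Ω.Nonempty →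
      (Ω.inf (Function.update Z i (insert x (Z i)))).card + Ω.card ≤ k := by
  classical
  by_contra hcon
  push Not at hcon
  -- structure of a violated set
  have hv : ∀ x, x ∉ Z i → ∃ Ω : Finset (Fin k), i ∈ Ω ∧ (Ω.inf Z).card + Ω.card = k ∧
      ∀ l ∈ Ω, l ≠ i → x ∈ Z l := by
    intro x hx
    obtain ⟨Ω, hne, hΩ⟩ := hcon x hx
    have hiΩ : i ∈ Ω := by
      by_contra h
      have : Ω.inf (Function.update Z i (insert x (Z i))) = Ω.inf Z := by
        refine Finset.inf_congr rfl fun l hl => ?_
        have hli : l ≠ i := fun h' => h (by rw [← h']; exact hl)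
        exact Function.update_of_ne hli _ _
      rw [this] at hΩ
      have := H Ω hne
      omega
    have hsub : Ω.inf (Function.update Z i (insert x (Z i))) ⊆ insert x (Ω.inf Z) := by
      intro y hy
      rw [Finset.mem_insert]
      by_cases hyx : y = x
      · exact Or.inl hyx
      · right
        have hall : ∀ l ∈ Ω, y ∈ Z l := by
          intro l hl
          have h1 : y ∈ Function.update Z i (insert x (Z i)) l :=
            (show Ω.inf (Function.update Z i (insert x (Z i))) ⊆ Function.update Z i (insert x (Z i)) l from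
              Finset.inf_le hl) hy
          by_cases hli : l = i
          · subst hli
            rw [Function.update_self, Finset.mem_insert] at h1
            exact h1.resolve_left hyx
          · rwa [Function.update_of_ne hli] at h1
        exact Finset.mem_of_subset (s₁ := {y}) (Finset.le_inf fun l hl => by
          simpa using hall l hl) (Finset.mem_singleton_self y)
    have hHΩ := H Ω hne
    have hx' : ∀ l ∈ Ω, l ≠ i → x ∈ Z l := by
      by_contra hno
      push Not at hno
      obtain ⟨l, hl, hli, hxl⟩ := hno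
      have hsub2 : Ω.inf (Function.update Z i (insert x (Z i))) ⊆ Ω.inf Z := by
        intro y hy
        rcases Finset.mem_insert.mp (hsub hy) with h | h
        · exfalso
          have h1 : y ∈ Function.update Z i (insert x (Z i)) l :=
            (show Ω.inf (Function.update Z i (insert x (Z i))) ⊆ Function.update Z i (insert x (Z i)) l from
              Finset.inf_le hl) hy
          rw [Function.update_of_ne hli] at h1
          exact hxl (h ▸ h1)
        · exact h
      have := Finset.card_le_card hsub2
      omega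
    have hc := (Finset.card_le_card hsub).trans (Finset.card_insert_le _ _)
    exact ⟨Ω, hiΩ, by omega, hx'⟩
  -- two points outside `Z i`
  have h2 : 1 < ((Z i)ᶜ).card := by
    rw [Finset.card_compl, Fintype.card_fin]; omega
  obtain ⟨x, hx, y, hy, hxy⟩ := Finset.one_lt_card.mp h2
  rw [Finset.mem_compl] at hx hy
  obtain ⟨Ω, hiΩ, htΩ, hxΩ⟩ := hv x hx
  obtain ⟨Θ, hiΘ, htΘ, hyΘ⟩ := hv y hy
  have hI : i ∈ Ω ∩ Θ := Finset.mem_inter.mpr ⟨hiΩ, hiΘ⟩
  have hU := H (Ω ∪ Θ) ⟨i, Finset.mem_union_left _ hiΩ⟩
  have hN := H (Ω ∩ Θ) ⟨i, hI⟩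
  have hcard := Finset.card_union_add_card_inter Ω Θ
  have hcard2 := Finset.card_union_add_card_inter (Ω.inf Z) (Θ.inf Z)
  have hinter : (Ω ∪ Θ).inf Z = Ω.inf Z ∩ Θ.inf Z := Finset.inf_union
  have hunion : Ω.inf Z ∪ Θ.inf Z ⊆ (Ω ∩ Θ).inf Z := by
    apply Finset.union_subset
    · exact Finset.inf_mono Finset.inter_subset_left
    · exact Finset.inf_mono Finset.inter_subset_right
  have hcu := Finset.card_le_card hunion
  rw [hinter] at hU
  have htight : ((Ω ∩ Θ).inf Z).card + (Ω ∩ Θ).card = k := by omega
  -- now the set without i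
  have hsplit : (Ω ∩ Θ).inf Z = Z i ∩ ((Ω ∩ Θ).erase i).inf Z := by
    conv_lhs => rw [← Finset.insert_erase hI]
    rw [Finset.inf_insert]
    rfl
  have hcardE : ((Ω ∩ Θ).erase i).card = (Ω ∩ Θ).card - 1 := Finset.card_erase_of_mem hI
  have hpos : 0 < (Ω ∩ Θ).card := Finset.card_pos.mpr ⟨i, hI⟩
  rcases ((Ω ∩ Θ).erase i).eq_empty_or_nonempty with he | hne
  · rw [hsplit, he] at htight
    simp only [Finset.inf_empty] at htight
    have : (Z i ∩ (⊤ : Finset (Fin n))) = Z i := by ext z; simp
    rw [this] at htight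
    rw [he, Finset.card_empty] at hcardE
    omega
  · have h3 := H _ hne
    have h4 : {x, y} ∪ (Z i ∩ ((Ω ∩ Θ).erase i).inf Z) ⊆ ((Ω ∩ Θ).erase i).inf Z := by
      apply Finset.union_subset
      · apply Finset.le_inf
        intro l hl
        have hl' := Finset.mem_erase.mp hl
        have hl2 := Finset.mem_inter.mp hl'.2
        intro z hz
        rw [Finset.mem_insert, Finset.mem_singleton] at hz
        rcases hz with rfl | rfl
        · exact hxΩ l hl2.1 hl'.1
        · exact hyΘ l hl2.2 hl'.1
      · exact Finset.inter_subset_right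
    have h5 := Finset.card_le_card h4
    rw [Finset.card_union_of_disjoint, Finset.card_pair hxy, ← hsplit] at h5
    · omega
    · rw [Finset.disjoint_left]
      intro z hz hz2
      rw [Finset.mem_insert, Finset.mem_singleton] at hz
      have := (Finset.mem_inter.mp hz2).1
      rcases hz with rfl | rfl
      · exact hx this
      · exact hy this

lemma extend {n k : ℕ} (hkn : k ≤ n) (N : ℕ) : ∀ (Z : Fin k → Finset (Fin n)),
    (∀ Ω : Finset (Fin k), Ω.Nonempty → (Ω.inf Z).card + Ω.card ≤ k) → ∑ i, (k - 1 - (Z i).card) ≤ N →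
    ∃ Z' : Fin k → Finset (Fin n), (∀ i, Z i ⊆ Z' i) ∧ (∀ i, (Z' i).card = k - 1) ∧
      ∀ Ω : Finset (Fin k), Ω.Nonempty → (Ω.inf Z').card + Ω.card ≤ k := by
  induction N with
  | zero =>
      intro Z H hN
      refine ⟨Z, fun i => Finset.Subset.refl _, fun i => ?_, H⟩
      have h1 := H {i} ⟨i, by simp⟩
      rw [Finset.inf_singleton, Finset.card_singleton] at h1
      have h2 : k - 1 - (Z i).card ≤ ∑ i, (k - 1 - (Z i).card) :=
        Finset.single_le_sum (f := fun i => k - 1 - (Z i).card) (fun _ _ => Nat.zero_le _) (Finset.mem_univ i)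
      omega
  | succ N ih =>
      intro Z H hN
      by_cases hall : ∀ i, (Z i).card = k - 1
      · exact ⟨Z, fun i => Finset.Subset.refl _, hall, H⟩
      · push Not at hall
        obtain ⟨i, hi⟩ := hall
        have h1 := H {i} ⟨i, by simp⟩
        rw [Finset.inf_singleton, Finset.card_singleton] at h1
        have hlt : (Z i).card < k - 1 := by omega
        obtain ⟨x, hx, hH⟩ := extend_aux hkn Z H i hlt
        have hsum : ∑ j, (k - 1 - (Function.update Z i (insert x (Z i)) j).card) <
            ∑ j, (k - 1 - (Z j).card) := by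
          apply Finset.sum_lt_sum
          · intro j _
            by_cases hj : j = i
            · subst hj
              rw [Function.update_self, Finset.card_insert_of_notMem hx]; omega
            · rw [Function.update_of_ne hj]
          · refine ⟨i, Finset.mem_univ _, ?_⟩
            rw [Function.update_self, Finset.card_insert_of_notMem hx]; omega
        obtain ⟨Z', h3, h4, h5⟩ := ih _ hH (by omega)
        refine ⟨Z', fun j => ?_, h4, h5⟩
        by_cases hj : j = i
        · subst hj
          have := h3 j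
          rw [Function.update_self] at this
          exact (Finset.subset_insert _ _).trans this
        · have := h3 j
          rwa [Function.update_of_ne hj] at this

end Extend

end Pool.Agent.X78.Gab
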