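import Pool.Agent.X78.Gab.D

set_option autoImplicit false

namespace Pool.Agent.X78.Gab

open Finset Matrix

section Generic

variable {n k : ℕ} {F : Type*} [Field F]

/-- nonzero good vectors exist -/
lemma exists_good (e : Fin k → ℕ) (Z : Finset (Fin n)) (hZ : Z.card < k) :
    ∃ f : Fin k → MvPolynomial (Fin n) F, f ≠ 0 ∧ Good e Z 0 f := by
  let M : Matrix (Fin k) (Fin k) (MvPolynomial (Fin n) F) := fun a c =>
    if h : (a : ℕ) < Z.card then MvPolynomial.X (Z.equivFin.symm ⟨a, h⟩ : Fin n) ^ (e c) else 0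
  have hdet : M.det = 0 := by
    apply Matrix.det_eq_zero_of_row_eq_zero (⟨Z.card, hZ⟩ : Fin k)
    intro c
    simp [M]
  rw [← Matrix.exists_mulVec_eq_zero_iff] at hdet
  obtain ⟨f, hf0, hf⟩ := hdet
  refine ⟨f, hf0, fun c hc => absurd hc (Nat.not_lt_zero _), fun l hl => ?_⟩
  have h1 := congrFun hf ⟨(Z.equivFin ⟨l, hl⟩ : ℕ), lt_trans (Z.equivFin ⟨l, hl⟩).2 hZ⟩
  simp only [Matrix.mulVec, dotProduct, M, Pi.zero_apply, Fin.is_lt, dite_true, Fin.eta,
    Equiv.symm_apply_apply] at h1
  rw [← h1]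
  exact Finset.sum_congr rfl fun c _ => mul_comm _ _

lemma good_smul' {e : Fin k → ℕ} {A : Finset (Fin n)} {f : Fin k → MvPolynomial (Fin n) F}
    (u : MvPolynomial (Fin n) F) (hf : Good e A 0 f) : Good e A 0 (fun c => u * f c) := by
  refine ⟨fun c hc => absurd hc (Nat.not_lt_zero _), fun l hl => ?_⟩
  have h1 := hf.2 l hl
  simp_rw [mul_assoc]
  rw [← Finset.mul_sum, h1, mul_zero]

lemma det_good {e : Fin k → ℕ} (he : StrictMono e) (Z : Fin k → Finset (Fin n)) (hZ : ∀ i, (Z i).card = k - 1)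
    (H : ∀ Ω : Finset (Fin k), Ω.Nonempty → (Ω.inf Z).card + Ω.card ≤ k)
    (f : Fin k → Fin k → MvPolynomial (Fin n) F) (hf0 : ∀ i, f i ≠ 0) (hf : ∀ i, Good e (Z i) 0 (f i)) :
    Matrix.det (Matrix.of f) ≠ 0 := by
  intro hdet
  rw [← Matrix.exists_vecMul_eq_zero_iff] at hdet
  obtain ⟨v, hv0, hv⟩ := hdet
  apply hv0
  have key := main he _ (Finset.univ : Finset (Fin k)) Z (fun _ => 0) (fun _ => 1)
    (fun i c => v i * f i c) rfl (fun i _ => by
      have := hZ i
      have := i.2
      refine ⟨by omega, le_rfl⟩) (by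
      intro J _ hJ t ht
      obtain ⟨x, hx⟩ := hJ
      have ht0 : t = 0 := Nat.le_zero.mp (ht x hx)
      have := H J ⟨x, hx⟩
      rw [ht0, Finset.sum_const, smul_eq_mul, mul_one]
      omega) (fun i _ => good_smul' (v i) (hf i)) (by
      funext c
      rw [Finset.sum_apply]
      have := congrFun hv c
      simpa [Matrix.vecMul, dotProduct] using this)
  funext i
  obtain ⟨c, hc⟩ := Function.ne_iff.mp (hf0 i)
  have h1 := congrFun (key i (Finset.mem_univ _)) c
  exact (mul_eq_zero.mp h1).resolve_right hc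

lemma pow_strictMono (q : ℕ) (hq : 1 < q) (k : ℕ) : StrictMono (fun c : Fin k => q ^ (c : ℕ)) :=
  fun _ _ h => Nat.pow_lt_pow_right hq h

lemma moore_poly (q : ℕ) (hq : 1 < q) :
    Matrix.det (Matrix.of fun (i l : Fin n) => (MvPolynomial.X l : MvPolynomial (Fin n) F) ^ (q ^ (i : ℕ))) ≠ 0 := by
  intro hdet
  rw [← Matrix.exists_vecMul_eq_zero_iff] at hdet
  obtain ⟨v, hv0, hv⟩ := hdet
  apply hv0
  apply vander (pow_strictMono q hq n) _ Finset.univ 0 v le_rfl (by simp)
  refine ⟨fun c hc => absurd hc (Nat.not_lt_zero _), fun l _ => ?_⟩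
  have := congrFun hv l
  simpa [Matrix.vecMul, dotProduct] using this

lemma exists_eval {K : Type*} [Field K] [Infinite K] [Algebra F K] (Q : MvPolynomial (Fin n) F) (hQ : Q ≠ 0) :
    ∃ γ : Fin n → K, MvPolynomial.aeval γ Q ≠ 0 := by
  by_contra hcon
  push Not at hcon
  apply hQ
  apply MvPolynomial.map_injective (algebraMap F K) (algebraMap F K).injective
  rw [map_zero]
  apply MvPolynomial.funext
  intro x
  rw [MvPolynomial.eval_map, map_zero]
  exact hcon x

lemma exists_nonzero_minor_aux [Fintype F] (K : Type*) [Field K] [Infinite K] [Algebra F K]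
    (hK : Function.Surjective (fun x : K => x ^ Fintype.card F)) {d : ℕ} (hn : n = k + d)
    (Z : Fin k → Finset (Fin n))
    (hZ : ∀ i, (Z i).card = k - 1)
    (H : ∀ Ω : Finset (Fin k), Ω.Nonempty → (Ω.inf Z).card + Ω.card ≤ k)
    (σ : Fin k → Fin (d + 1) → Fin n) (hσ : ∀ i, Function.Injective (σ i))
    (hσZ : ∀ i a, (∀ b, σ i b ≠ a) → a ∈ Z i) :
    ∃ T : Fin k → Fin n, Matrix.det (Matrix.of fun (i a : Fin k) =>
      wrow (Fintype.card F) (σ i) (MvPolynomial.X (R := F)) (T a)) ≠ 0 := by
  have hq : 1 < Fintype.card F := Fintype.one_lt_card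
  set q := Fintype.card F with hqdef
  let e : Fin k → ℕ := fun c => q ^ (c : ℕ)
  have he : StrictMono e := pow_strictMono q hq k
  choose f hf0 hf using fun i => exists_good (F := F) e (Z i) (by
    have := hZ i; have := i.2; omega)
  have hdetf := det_good he Z hZ H f hf0 hf
  have hmo := moore_poly (n := n) (F := F) q hq
  obtain ⟨γ, hγ⟩ := exists_eval (K := K) _ (mul_ne_zero hdetf hmo)
  rw [map_mul] at hγ
  have hγ1 := left_ne_zero_of_mul hγ
  have hγ2 := right_ne_zero_of_mul hγ
  -- γ is linearly independent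
  have hγli : LinearIndependent F γ := by
    rw [Fintype.linearIndependent_iff]
    intro c hc
    by_contra hcon
    push Not at hcon
    obtain ⟨j0, hj0⟩ := hcon
    apply hγ2
    rw [AlgHom.map_det, ← Matrix.exists_mulVec_eq_zero_iff]
    refine ⟨fun j => algebraMap F K (c j), ?_, ?_⟩
    · intro h0
      apply hj0
      have := congrFun h0 j0
      simpa using this
    · funext i
      have h1 := congrArg (fr F K (i : ℕ)) hc
      rw [map_sum, map_zero] at h1
      rw [Pi.zero_apply, ← h1]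
      simp only [Matrix.mulVec, dotProduct]
      refine Finset.sum_congr rfl fun j _ => ?_
      rw [map_smul, fr_apply, Algebra.smul_def, mul_comm]
      simp [hqdef]
  -- the codewords
  let c : Fin k → Fin n → K := fun i j => ∑ t, MvPolynomial.aeval γ (f i t) * γ j ^ (q ^ (t : ℕ))
  have hcZ : ∀ i, ∀ j ∈ Z i, c i j = 0 := by
    intro i j hj
    have h1 := congrArg (MvPolynomial.aeval γ) ((hf i).2 j hj)
    rw [map_sum, map_zero] at h1
    rw [← h1]
    refine Finset.sum_congr rfl fun t _ => ?_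
    rw [map_mul, map_pow, MvPolynomial.aeval_X]
  have hcli : LinearIndependent K c := by
    rw [Fintype.linearIndependent_iff]
    intro l hl
    have h2 : (fun t : Fin k => ∑ i, l i * MvPolynomial.aeval γ (f i t)) = 0 := by
      apply M2 hγli (N := k) (by rw [Fintype.card_fin]; omega)
      intro j
      have h3 := congrFun hl j
      rw [Finset.sum_apply, Pi.zero_apply] at h3
      rw [← h3]
      simp only [c, Pi.smul_apply, smul_eq_mul, Finset.mul_sum, Finset.sum_mul]
      rw [Finset.sum_comm]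
      refine Finset.sum_congr rfl fun i _ => Finset.sum_congr rfl fun t _ => ?_
      ring
    have h4 : l = 0 := by
      by_contra hne
      apply hγ1
      rw [AlgHom.map_det, ← Matrix.exists_vecMul_eq_zero_iff]
      refine ⟨l, hne, ?_⟩
      funext t
      have := congrFun h2 t
      simpa [Matrix.vecMul, dotProduct] using this
    intro i
    exact congrFun h4 i
  -- dual points
  obtain ⟨h, hhli, horth⟩ := D1 (K := K) hK (k := d) (d := k) (n := n) (by omega) hγli
  have hcorth : ∀ i, ∀ s < d, ∑ j, c i j * h j ^ (q ^ s) = 0 := by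
    intro i s hs
    simp only [c, Finset.sum_mul]
    rw [Finset.sum_comm]
    apply Finset.sum_eq_zero
    intro t _
    have h5 := horth s hs t t.2
    have h6 : ∑ j, MvPolynomial.aeval γ (f i t) * γ j ^ (q ^ (t : ℕ)) * h j ^ (q ^ s)
        = MvPolynomial.aeval γ (f i t) * ∑ j, h j ^ (q ^ s) * γ j ^ (q ^ (t : ℕ)) := by
      rw [Finset.mul_sum]
      exact Finset.sum_congr rfl fun j _ => by ring
    rw [h6, h5, mul_zero]
  -- `c i` is a multiple of `wrow`
  have hprop : ∀ i, ∃ μ : K, ∀ a, c i a = μ * wrow q (σ i) h a := by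
    intro i
    have hli' : LinearIndependent F (fun b : Fin d => h (σ i b.succ)) :=
      hhli.comp (fun b : Fin d => σ i b.succ) ((hσ i).comp (Fin.succ_injective _))
    have hw0 : wv q (σ i) h 0 ≠ 0 := by
      unfold wv
      apply mul_ne_zero (pow_ne_zero _ (by simp))
      intro hdet
      rw [← Matrix.exists_mulVec_eq_zero_iff] at hdet
      obtain ⟨v, hv0, hv⟩ := hdet
      apply hv0
      apply M2 hli' (N := d) (by rw [Fintype.card_fin])
      intro b
      have := congrFun hv b
      rw [Pi.zero_apply] at this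
      rw [← this]
      simp only [Matrix.mulVec, dotProduct, Matrix.of_apply, Fin.succAbove_zero]
      exact Finset.sum_congr rfl fun s _ => mul_comm _ _
    set μ : K := c i (σ i 0) / wv q (σ i) h 0 with hμ
    refine ⟨μ, ?_⟩
    set c' : Fin n → K := fun a => c i a - μ * wrow q (σ i) h a with hc'
    have hz1 : ∀ a, (∀ b, σ i b ≠ a) → c' a = 0 := by
      intro a ha
      simp only [hc']
      rw [hcZ i a (hσZ i a ha), wrow_zero _ _ _ _ ha, mul_zero, sub_zero]
    have hz2 : c' (σ i 0) = 0 := by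
      simp only [hc']
      rw [wrow_apply _ _ (hσ i), hμ, div_mul_cancel₀ _ hw0, sub_self]
    have horth' : ∀ s < d, ∑ b : Fin d, c' (σ i b.succ) * h (σ i b.succ) ^ (q ^ s) = 0 := by
      intro s hs
      have h7 : ∑ a, c' a * h a ^ (q ^ s) = 0 := by
        simp only [hc', sub_mul, Finset.sum_sub_distrib, mul_assoc]
        rw [← Finset.mul_sum, wrow_orth q (σ i) h s hs, hcorth i s hs, mul_zero, sub_zero]
      have h8 : ∑ a, c' a * h a ^ (q ^ s) = ∑ b, c' (σ i b) * h (σ i b) ^ (q ^ s) := by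
        rw [← Finset.sum_subset (Finset.subset_univ (Finset.univ.image (σ i)))]
        · rw [Finset.sum_image (fun x _ y _ hxy => hσ i hxy)]
        · intro a _ ha
          rw [hz1 a (fun b hb => ha (Finset.mem_image.mpr ⟨b, Finset.mem_univ _, hb⟩)), zero_mul]
      rw [h8, Fin.sum_univ_succ, hz2, zero_mul, zero_add] at h7
      exact h7
    have hz3 := M1 hli' (g := fun b => c' (σ i b.succ)) (by
      intro s hs
      rw [Fintype.card_fin] at hs
      exact horth' s hs)
    intro a
    have h9 : c' a = 0 := by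
      by_cases ha : ∀ b, σ i b ≠ a
      · exact hz1 a ha
      · push Not at ha
        obtain ⟨b, hb⟩ := ha
        rw [← hb]
        refine Fin.cases ?_ (fun b' => ?_) b
        · exact hz2
        · exact congrFun hz3 b'
    simp only [hc'] at h9
    exact sub_eq_zero.mp h9
  choose μ hμ using hprop
  have hμ0 : ∀ i, μ i ≠ 0 := by
    intro i h0
    apply hcli.ne_zero i
    funext a
    rw [hμ i a, h0, zero_mul]; rfl
  have hWli : LinearIndependent K (fun i => fun a => wrow q (σ i) h a) := by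
    rw [Fintype.linearIndependent_iff] at hcli ⊢
    intro l hl i
    have h10 := hcli (fun i => l i / μ i) (by
      rw [← hl]
      refine Finset.sum_congr rfl fun i _ => ?_
      funext a
      simp only [Pi.smul_apply, smul_eq_mul]
      rw [hμ i a, ← mul_assoc, div_mul_cancel₀ _ (hμ0 i)]) i
    exact (div_eq_zero_iff.mp h10).resolve_right (hμ0 i)
  obtain ⟨T, hT⟩ := exists_minor _ hWli
  refine ⟨T, fun h0 => hT ?_⟩
  have h11 := congrArg (MvPolynomial.aeval h) h0
  rw [map_zero, AlgHom.map_det] at h11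
  rw [← h11]
  congr 1
  ext i a
  simp only [Matrix.of_apply, AlgHom.mapMatrix_apply, Matrix.map_apply]
  have := wrow_map (MvPolynomial.aeval h : MvPolynomial (Fin n) F →ₐ[F] K).toRingHom q (σ i) MvPolynomial.X (T a)
  simp only [AlgHom.toRingHom_eq_coe, RingHom.coe_coe, MvPolynomial.aeval_X] at this
  exact this.symm

lemma exists_nonzero_minor [Fintype F] {d : ℕ} (hn : n = k + d) (Z : Fin k → Finset (Fin n))
    (hZ : ∀ i, (Z i).card = k - 1)
    (H : ∀ Ω : Finset (Fin k), Ω.Nonempty → (Ω.inf Z).card + Ω.card ≤ k)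
    (σ : Fin k → Fin (d + 1) → Fin n) (hσ : ∀ i, Function.Injective (σ i))
    (hσZ : ∀ i a, (∀ b, σ i b ≠ a) → a ∈ Z i) :
    ∃ T : Fin k → Fin n, Matrix.det (Matrix.of fun (i a : Fin k) =>
      wrow (Fintype.card F) (σ i) (MvPolynomial.X (R := F)) (T a)) ≠ 0 := by
  refine exists_nonzero_minor_aux (AlgebraicClosure F) ?_ hn Z hZ H σ hσ hσZ
  intro x
  obtain ⟨z, hz⟩ := IsAlgClosed.exists_pow_nat_eq x (n := Fintype.card F) Fintype.card_pos
  exact ⟨z, hz⟩

end Generic

end Pool.Agent.X78.Gab
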