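import Pool.Agent.X78.Gab.E

set_option autoImplicit false

namespace Pool.Agent.X78.Gab

open Finset Matrix

section Dual

variable {F L : Type*} [Field F] [Fintype F] [Field L] [Algebra F L]

/-- evaluation map of the Gabidulin code -/
noncomputable def ev (F : Type*) {L : Type*} [Fintype F] [Field L] {n : ℕ} (k : ℕ) (g : Fin n → L) :
    (Fin k → L) →ₗ[L] (Fin n → L) :=
  (Matrix.of fun (j : Fin n) (t : Fin k) => g j ^ (Fintype.card F ^ (t : ℕ))).mulVecLin

omit [Field F] [Algebra F L] in
lemma ev_apply {n k : ℕ} (g : Fin n → L) (f : Fin k → L) (j : Fin n) :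
    ev F k g f j = ∑ t, f t * g j ^ (Fintype.card F ^ (t : ℕ)) := by
  simp only [ev, Matrix.mulVecLin_apply, Matrix.mulVec, dotProduct, Matrix.of_apply]
  exact Finset.sum_congr rfl fun t _ => mul_comm _ _

lemma ev_inj {n k : ℕ} (hkn : k ≤ n) {g : Fin n → L} (hg : LinearIndependent F g) :
    Function.Injective (ev F k g) := by
  rw [← LinearMap.ker_eq_bot, LinearMap.ker_eq_bot']
  intro f hf
  apply M2 hg (by rw [Fintype.card_fin]; exact hkn)
  intro j
  rw [← ev_apply, hf]; rfl

lemma range_ev {n k : ℕ} (g : Fin n → L) : LinearMap.range (ev F k g) = gabidulin F k g := by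
  ext c
  rw [LinearMap.mem_range]
  constructor
  · rintro ⟨f, rfl⟩
    exact ⟨f, fun j => ev_apply g f j⟩
  · rintro ⟨f, hf⟩
    exact ⟨f, funext fun j => (ev_apply g f j).trans (hf j).symm⟩

lemma finrank_gab {n k : ℕ} (hkn : k ≤ n) {g : Fin n → L} (hg : LinearIndependent F g) :
    Module.finrank L (gabidulin F k g) = k := by
  rw [← range_ev, LinearMap.finrank_range_of_inj (ev_inj hkn hg), Module.finrank_fin_fun]

lemma D2 {n k d : ℕ} (hn : n = k + d) {g h : Fin n → L} (hg : LinearIndependent F g) (hh : LinearIndependent F h)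
    (horth : ∀ t < k, ∀ s < d, ∑ j, g j ^ (Fintype.card F ^ t) * h j ^ (Fintype.card F ^ s) = 0)
    (c : Fin n → L) (hc : ∀ s < d, ∑ j, c j * h j ^ (Fintype.card F ^ s) = 0) : c ∈ gabidulin F k g := by
  let Hm : Matrix (Fin d) (Fin n) L := Matrix.of fun s j => h j ^ (Fintype.card F ^ (s : ℕ))
  have hrow : LinearIndependent L Hm.row := by
    rw [Fintype.linearIndependent_iff]
    intro a ha
    have h1 : a = 0 := by
      apply M2 hh (by rw [Fintype.card_fin]; omega)
      intro j
      have := congrFun ha j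
      rw [Finset.sum_apply, Pi.zero_apply] at this
      exact this
    intro i; rw [h1]; rfl
  have hrank := hrow.rank_matrix
  rw [Fintype.card_fin] at hrank
  have hrn := LinearMap.finrank_range_add_finrank_ker Hm.mulVecLin
  have hrr : Module.finrank L (LinearMap.range Hm.mulVecLin) = d := hrank
  rw [hrr, Module.finrank_fin_fun] at hrn
  have hker : Module.finrank L (LinearMap.ker Hm.mulVecLin) = k := by omega
  have hle : gabidulin F k g ≤ LinearMap.ker Hm.mulVecLin := by
    rintro c' ⟨f, hf⟩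
    rw [LinearMap.mem_ker]
    funext s
    simp only [Matrix.mulVecLin_apply, Matrix.mulVec, dotProduct, Hm, Matrix.of_apply, Pi.zero_apply]
    have h2 : ∑ j, h j ^ (Fintype.card F ^ (s : ℕ)) * c' j
        = ∑ t : Fin k, f t * ∑ j, g j ^ (Fintype.card F ^ (t : ℕ)) * h j ^ (Fintype.card F ^ (s : ℕ)) := by
      simp only [hf, Finset.mul_sum]
      rw [Finset.sum_comm]
      exact Finset.sum_congr rfl fun t _ => Finset.sum_congr rfl fun j _ => by ring
    rw [h2]
    exact Finset.sum_eq_zero fun t _ => by rw [horth t t.2 s s.2, mul_zero]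
  have heq := Submodule.eq_of_le_of_finrank_eq hle (by rw [hker, finrank_gab (by omega) hg])
  rw [heq, LinearMap.mem_ker]
  funext s
  simp only [Matrix.mulVecLin_apply, Matrix.mulVec, dotProduct, Hm, Matrix.of_apply, Pi.zero_apply]
  rw [← hc s s.2]
  exact Finset.sum_congr rfl fun j _ => mul_comm _ _

lemma bound (q n k d m : ℕ) (hq : 1 < q) (hk : 1 ≤ k) (hn : n = k + d) (hm : n ≤ m) (n' : ℕ) (hn' : n' < n) :
    q ^ n' + k * bt q d < q ^ m := by
  have h1 : q ^ n' ≤ q ^ (n - 1) := Nat.pow_le_pow_right (by omega) (by omega)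
  have h2 : q ^ n ≤ q ^ m := Nat.pow_le_pow_right (by omega) hm
  have h3 : q ^ n = q * q ^ (n - 1) := by
    rw [← pow_succ']; congr 1; omega
  have hpos : 0 < q ^ (n - 1) := Nat.pow_pos (by omega)
  by_cases hd : d = 0
  · simp only [bt, hd, if_true, mul_zero, add_zero]
    have : q ^ (n - 1) < q ^ n := by
      rw [h3]; nlinarith
    omega
  · simp only [bt, hd, if_false]
    have h4 : k < q ^ k := Nat.lt_pow_self hq
    have h5 : q ^ (n - 1) = q ^ k * q ^ (d - 1) := by
      rw [← pow_add]; congr 1; omega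
    have hpos2 : 0 < q ^ (d - 1) := Nat.pow_pos (by omega)
    have h6 : k * q ^ (d - 1) < q ^ (n - 1) := by
      rw [h5]; exact Nat.mul_lt_mul_of_pos_right h4 hpos2
    have h7 : 2 * q ^ (n - 1) ≤ q ^ n := by
      rw [h3]; exact Nat.mul_le_mul_right _ hq
    omega

theorem gab_main [Fintype L] {n k m : ℕ} (hk : 1 ≤ k) (hkn : k ≤ n) (hnm : n ≤ m)
    (hL : Fintype.card L = Fintype.card F ^ m) (Z : Fin k → Finset (Fin n))
    (H : ∀ Ω : Finset (Fin k), Ω.Nonempty → (Ω.inf Z).card + Ω.card ≤ k) :
    ∃ g : Fin n → L, LinearIndependent F g ∧ ∃ G : Fin k → Fin n → L, LinearIndependent L G ∧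
      Submodule.span L (Set.range G) = gabidulin F k g ∧ ∀ i, ∀ j ∈ Z i, G i j = 0 := by
  have hq : 1 < Fintype.card F := Fintype.one_lt_card
  obtain ⟨Z', hZZ', hZ', H'⟩ := extend hkn _ Z H le_rfl
  obtain ⟨d, hn⟩ : ∃ d, n = k + d := ⟨n - k, by omega⟩
  have hcard : ∀ i, ((Z' i)ᶜ).card = d + 1 := by
    intro i
    rw [Finset.card_compl, Fintype.card_fin, hZ' i]; omega
  let σ : Fin k → Fin (d + 1) → Fin n := fun i => ((Z' i)ᶜ).orderEmbOfFin (hcard i)
  have hσ : ∀ i, Function.Injective (σ i) := fun i => (((Z' i)ᶜ).orderEmbOfFin (hcard i)).injective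
  have hσmem : ∀ i b, σ i b ∉ Z' i := by
    intro i b
    have := Finset.orderEmbOfFin_mem ((Z' i)ᶜ) (hcard i) b
    exact Finset.mem_compl.mp this
  have hσZ : ∀ i a, (∀ b, σ i b ≠ a) → a ∈ Z' i := by
    intro i a ha
    by_contra hcon
    have h1 : a ∈ Set.range (((Z' i)ᶜ).orderEmbOfFin (hcard i)) := by
      rw [Finset.range_orderEmbOfFin]
      exact Finset.mem_coe.mpr (Finset.mem_compl.mpr hcon)
    obtain ⟨b, hb⟩ := h1
    exact ha b hb
  obtain ⟨T, hT⟩ := exists_nonzero_minor (F := F) hn Z' hZ' H' σ hσ hσZ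
  -- the minor over `L`
  set D : MvPolynomial (Fin n) L := Matrix.det (Matrix.of fun (i a : Fin k) =>
      wrow (Fintype.card F) (σ i) (MvPolynomial.X (R := L)) (T a)) with hD
  have hmap : MvPolynomial.map (algebraMap F L) (Matrix.det (Matrix.of fun (i a : Fin k) =>
      wrow (Fintype.card F) (σ i) (MvPolynomial.X (R := F)) (T a))) = D := by
    rw [hD, RingHom.map_det]
    congr 1
    ext1 i a
    simp only [RingHom.mapMatrix_apply, Matrix.map_apply, Matrix.of_apply]
    rw [wrow_map]
    simp only [MvPolynomial.map_X]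
  have hD0 : D ≠ 0 := by
    rw [← hmap]
    intro h0
    apply hT
    apply MvPolynomial.map_injective (algebraMap F L) (algebraMap F L).injective
    rw [h0, map_zero]
  have hdeg : ∀ j, D.degreeOf j ≤ k * bt (Fintype.card F) d := by
    intro j
    refine (degreeOf_det_le _ j (fun _ => bt (Fintype.card F) d) ?_).trans ?_
    · intro i a
      exact degreeOf_wrow _ (by omega) (σ i) (hσ i) j (T a)
    · rw [Finset.sum_const, Finset.card_univ, Fintype.card_fin, smul_eq_mul]
  obtain ⟨h, hh, hDh⟩ := choose_pt (F := F) _ n D hD0 hdeg (fun n' hn' => by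
    rw [hL]; exact bound _ n k d m hq hk hn hnm n' hn')
  -- rows
  have hevD : MvPolynomial.eval h D = Matrix.det (Matrix.of fun (i a : Fin k) =>
      wrow (Fintype.card F) (σ i) h (T a)) := by
    rw [hD, RingHom.map_det]
    congr 1
    ext1 i a
    simp only [RingHom.mapMatrix_apply, Matrix.map_apply, Matrix.of_apply]
    rw [wrow_map]
    simp only [MvPolynomial.eval_X]
  rw [hevD] at hDh
  have hGli : LinearIndependent L (fun i => fun a => wrow (Fintype.card F) (σ i) h a) := by
    have h1 := Matrix.linearIndependent_rows_of_det_ne_zero hDh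
    exact LinearIndependent.of_comp (LinearMap.funLeft L L T) h1
  have hK : Function.Surjective (fun x : L => x ^ Fintype.card F) := by
    have hinj : Function.Injective (fun x : L => x ^ Fintype.card F) := by
      have : (fun x : L => x ^ Fintype.card F) = FiniteField.frobeniusAlgHom F L :=
        (FiniteField.coe_frobeniusAlgHom F L).symm
      rw [this]
      exact (FiniteField.frobeniusAlgHom F L).toRingHom.injective
    exact Finite.surjective_of_injective hinj
  obtain ⟨g, hg, horth⟩ := D1 hK hn hh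
  refine ⟨g, hg, fun i a => wrow (Fintype.card F) (σ i) h a, hGli, ?_, ?_⟩
  · have hle : Submodule.span L (Set.range fun i => fun a => wrow (Fintype.card F) (σ i) h a) ≤ gabidulin F k g := by
      rw [Submodule.span_le]
      rintro _ ⟨i, rfl⟩
      exact D2 hn hg hh horth _ (fun s hs => wrow_orth _ (σ i) h s hs)
    apply Submodule.eq_of_le_of_finrank_eq hle
    rw [finrank_span_eq_card hGli, Fintype.card_fin, finrank_gab hkn hg]
  · intro i j hj
    apply wrow_zero
    intro b hb
    exact hσmem i b (hb ▸ hZZ' i hj)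

end Dual

end Pool.Agent.X78.Gab
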